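import Mathlib
import Pool.Agent.R864.PolyPow

/-!
MP_d61c7e_al, Q1: for every `n` there is one polynomial `p` in `n` variables (with integer
coefficients, the same for all fields of characteristic `0`) whose image determines every
non-degenerate endomorphism of `K[x_1, ..., x_n]`.
-/

open Polynomial

namespace Pool.Agent.Results.MP_d61c7e_al.DeterminingPolynomial

universe u v

section OneVar

variable {K : Type*} [Field K] [CharZero K]

/-- rigidity of the cubics `z^3 + z + (i+1)` on nonconstant polynomials -/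
theorem cubic_rigid {w z : K[X]} (hw : w.natDegree ≠ 0) (i j : ℕ) (γ : K) (hγ : γ ≠ 0)
    (h : w ^ 3 + w + C ((i : K) + 1) = C γ * (z ^ 3 + z + C ((j : K) + 1))) :
    i = j ∧ w = z := by
  classical
  have hdeg : ∀ (y : K[X]) (k : ℕ), y.natDegree ≠ 0 →
      (y ^ 3 + y + C ((k : K) + 1)).natDegree = 3 * y.natDegree ∧
      (y ^ 3 + y + C ((k : K) + 1)).leadingCoeff = y.leadingCoeff ^ 3 := by
    intro y k hy
    have hy0 : y ≠ 0 := by
      intro h0
      rw [h0] at hy
      exact hy natDegree_zero
    have h1 : (y + C ((k : K) + 1)).natDegree < (y ^ 3).natDegree := by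
      rw [natDegree_add_C, natDegree_pow]
      omega
    have h2 : (y + C ((k : K) + 1)).degree < (y ^ 3).degree := by
      apply degree_lt_degree h1
    rw [add_assoc]
    constructor
    · rw [natDegree_add_eq_left_of_natDegree_lt h1, natDegree_pow]
    · rw [leadingCoeff_add_of_degree_lt' h2, leadingCoeff_pow]
  have hz : z.natDegree ≠ 0 := by
    intro h0
    obtain ⟨a, ha⟩ := natDegree_eq_zero.1 h0
    have h1 := (hdeg w i hw).1
    rw [h, ← ha] at h1
    have h2 : (C γ * ((C a) ^ 3 + C a + C ((j : K) + 1)) : K[X]).natDegree = 0 := by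
      rw [← C_pow, ← C_add, ← C_add, ← C_mul, natDegree_C]
    omega
  have hCγ : (C γ : K[X]) ≠ 0 := C_ne_zero.2 hγ
  have hw0 : w ≠ 0 := by
    intro h0
    rw [h0] at hw
    exact hw natDegree_zero
  have hz0 : z ≠ 0 := by
    intro h0
    rw [h0] at hz
    exact hz natDegree_zero
  obtain ⟨hd1, hl1⟩ := hdeg w i hw
  obtain ⟨hd2, hl2⟩ := hdeg z j hz
  have hdeq : w.natDegree = z.natDegree := by
    have h1 := congrArg natDegree h
    rw [hd1, natDegree_C_mul hγ, hd2] at h1
    omega
  have hleq : w.leadingCoeff ^ 3 = γ * z.leadingCoeff ^ 3 := by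
    have h1 := congrArg leadingCoeff h
    rw [hl1, leadingCoeff_mul, leadingCoeff_C, hl2] at h1
    exact h1
  have hlw : w.leadingCoeff ≠ 0 := leadingCoeff_ne_zero.2 hw0
  have hlz : z.leadingCoeff ≠ 0 := leadingCoeff_ne_zero.2 hz0
  set δ : K := w.leadingCoeff / z.leadingCoeff with hδ
  have hδz : δ * z.leadingCoeff = w.leadingCoeff := div_mul_cancel₀ _ hlz
  have hδ3 : δ ^ 3 = γ := by
    rw [hδ, div_pow, hleq]
    field_simp
  have hδ0 : δ ≠ 0 := div_ne_zero hlw hlz
  -- factorization
  have hfac : (w - C δ * z) * (w ^ 2 + C δ * w * z + C δ ^ 2 * z ^ 2)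
      = C γ * (z + C ((j : K) + 1)) - (w + C ((i : K) + 1)) := by
    have h1 : (C γ : K[X]) = C δ ^ 3 := by rw [← hδ3, C_pow]
    rw [h1] at h ⊢
    linear_combination h
  have hq : (w ^ 2 + C δ * w * z + C δ ^ 2 * z ^ 2).coeff (2 * w.natDegree)
      = 3 * w.leadingCoeff ^ 2 := by
    have c1 : (w ^ 2).coeff (2 * w.natDegree) = w.leadingCoeff ^ 2 :=
      coeff_pow_mul_natDegree w 2 
    have c2 : (C δ * w * z).coeff (2 * w.natDegree) = δ * w.leadingCoeff * z.leadingCoeff := by
      rw [mul_assoc, coeff_C_mul, two_mul]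
      nth_rewrite 2 [hdeq]
      rw [coeff_mul_degree_add_degree]
      ring
    have c3 : (C δ ^ 2 * z ^ 2).coeff (2 * w.natDegree) = δ ^ 2 * z.leadingCoeff ^ 2 := by
      rw [← C_pow, coeff_C_mul, hdeq, coeff_pow_mul_natDegree]
    rw [coeff_add, coeff_add, c1, c2, c3]
    have : δ * w.leadingCoeff * z.leadingCoeff = w.leadingCoeff ^ 2 := by
      rw [← hδz]
      ring
    rw [this]
    have : δ ^ 2 * z.leadingCoeff ^ 2 = w.leadingCoeff ^ 2 := by
      rw [← hδz]
      ring
    rw [this]
    ring
  have hwz : w = C δ * z := by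
    by_contra hne
    have hne' : w - C δ * z ≠ 0 := sub_ne_zero.2 hne
    have hq0 : (w ^ 2 + C δ * w * z + C δ ^ 2 * z ^ 2).coeff (2 * w.natDegree) ≠ 0 := by
      rw [hq]
      exact mul_ne_zero three_ne_zero (pow_ne_zero 2 hlw)
    have hqne : (w ^ 2 + C δ * w * z + C δ ^ 2 * z ^ 2) ≠ 0 := by
      intro h0
      rw [h0, coeff_zero] at hq0
      exact hq0 rfl
    have h2 : 2 * w.natDegree ≤ (w ^ 2 + C δ * w * z + C δ ^ 2 * z ^ 2).natDegree :=
      le_natDegree_of_ne_zero hq0
    have h3 : (C γ * (z + C ((j : K) + 1)) - (w + C ((i : K) + 1))).natDegree ≤ w.natDegree := by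
      refine (natDegree_sub_le _ _).trans (max_le ?_ ?_)
      · rw [natDegree_C_mul hγ, natDegree_add_C, hdeq]
      · rw [natDegree_add_C]
    rw [← hfac, natDegree_mul hne' hqne] at h3
    omega
  have h4 : C (δ - γ) * z = C (γ * ((j : K) + 1) - ((i : K) + 1)) := by
    rw [hwz, sub_self, zero_mul] at hfac
    rw [C_sub, C_sub, C_mul]
    linear_combination hfac
  have hδγ : δ = γ := by
    by_contra hne
    have hne' : δ - γ ≠ 0 := sub_ne_zero.2 hne
    have h5 := congrArg natDegree h4
    rw [natDegree_C_mul hne', natDegree_C] at h5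
    exact hz h5
  rw [hδγ, sub_self, C_0, zero_mul] at h4
  have h5 : γ * ((j : K) + 1) - ((i : K) + 1) = 0 := by
    have := h4.symm
    rwa [C_eq_zero] at this
  have h6 : (γ - 1) * (γ + 1) = 0 := by
    have h7 : γ * ((γ - 1) * (γ + 1)) = 0 := by
      rw [hδγ] at hδ3
      linear_combination hδ3
    rcases mul_eq_zero.1 h7 with h8 | h8
    · exact absurd h8 hγ
    · exact h8
  rcases mul_eq_zero.1 h6 with h7 | h7
  · have hγ1 : γ = 1 := by linear_combination h7
    rw [hγ1] at h5
    constructor
    · have h8 : (i : K) = (j : K) := by linear_combination -h5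
      exact_mod_cast h8
    · rw [hwz, hδγ, hγ1, C_1, one_mul]
  · exfalso
    have hγ1 : γ = -1 := by linear_combination h7
    rw [hγ1] at h5
    have h8 : ((i + j + 2 : ℕ) : K) = 0 := by
      push_cast
      linear_combination -h5
    have h9 : (i + j + 2 : ℕ) = 0 := by exact_mod_cast h8
    omega

/-- the linear forms `ℓ_i(g) = ∑_j (i+1)^j g_j` -/
noncomputable def ell {n : ℕ} (g : Fin n → K[X]) (i : ℕ) : K[X] :=
  ∑ j : Fin n, C (((i : K) + 1) ^ (j : ℕ)) * g j

/-- Vandermonde -/
theorem vander {n : ℕ} (w : Fin n → K[X]) (B : Finset ℕ) (hB : n ≤ B.card)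
    (h : ∀ i ∈ B, ell w i = 0) : w = 0 := by
  classical
  obtain ⟨B', hB', hc⟩ := Finset.exists_subset_card_eq hB
  let e := B'.orderEmbOfFin hc
  apply Matrix.eq_zero_of_forall_index_sum_pow_mul_eq_zero (f := fun k : Fin n =>
    (C ((e k : K) + 1) : K[X]))
  · intro a b hab
    have h1 := C_injective hab
    have h2 : ((e a : ℕ) : K) = ((e b : ℕ) : K) := by linear_combination h1
    have h3 : (e a : ℕ) = e b := by exact_mod_cast h2
    exact e.injective h3
  · intro k
    have h1 := h (e k) (hB' (Finset.orderEmbOfFin_mem B' hc k))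
    unfold ell at h1
    rw [← h1]
    refine Finset.sum_congr rfl fun j _ => ?_
    rw [C_pow]

/-- value of the determining polynomial -/
noncomputable def val {n : ℕ} (g : Fin n → K[X]) : K[X] :=
  ∑ i ∈ Finset.range (2 * n), (ell g i ^ 3 + ell g i + C ((i : K) + 1)) ^ (16 * n ^ 2)

theorem one_var {n : ℕ} (g h : Fin n → K[X]) (hg : ∃ a, (g a).natDegree ≠ 0)
    (hval : val g = val h) : g = h := by
  classical
  have hn : 1 ≤ n := by
    obtain ⟨a, _⟩ := hg
    exact a.pos
  -- indices with nonconstant ell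
  set S : Finset ℕ := (Finset.range (2 * n)).filter (fun i => (ell g i).natDegree ≠ 0) with hS
  have hScard : n ≤ S.card := by
    by_contra hlt
    push Not at hlt
    have h1 : n ≤ ((Finset.range (2 * n)) \ S).card := by
      have h0 : ((Finset.range (2 * n)) \ S).card = (Finset.range (2 * n)).card - S.card :=
        Finset.card_sdiff_of_subset (Finset.filter_subset _ _)
      rw [Finset.card_range] at h0
      omega
    have h2 : (fun j => derivative (g j)) = 0 := by
      apply vander _ _ h1
      intro i hi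
      have h3 : (ell g i).natDegree = 0 := by
        by_contra h4
        rw [Finset.mem_sdiff] at hi
        exact hi.2 (Finset.mem_filter.2 ⟨hi.1, h4⟩)
      have h5 : derivative (ell g i) = 0 := derivative_eq_zero.2 h3
      unfold ell at h5 ⊢
      rw [derivative_sum] at h5
      rw [← h5]
      refine Finset.sum_congr rfl fun j _ => ?_
      rw [derivative_C_mul]
    obtain ⟨a, ha⟩ := hg
    exact ha (derivative_eq_zero.1 (congrFun h2 a))
  have hmain : ∀ i ∈ S, ell g i = ell h i := by
    intro i hi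
    rw [hS, Finset.mem_filter] at hi
    obtain ⟨hir, hid⟩ := hi
    let F : ℕ ⊕ ℕ → K[X] := Sum.elim
      (fun i => ell g i ^ 3 + ell g i + C ((i : K) + 1))
      (fun i => ell h i ^ 3 + ell h i + C ((i : K) + 1))
    let c : ℕ ⊕ ℕ → K := Sum.elim (fun _ => 1) (fun _ => -1)
    have hF0 : F (Sum.inl i) ≠ 0 := by
      intro h0
      have h1 : (ell g i ^ 3 + ell g i + C ((i : K) + 1)).natDegree = 0 := by
        have : ell g i ^ 3 + ell g i + C ((i : K) + 1) = 0 := h0
        rw [this, natDegree_zero]
      have h2 : (ell g i + C ((i : K) + 1)).natDegree < (ell g i ^ 3).natDegree := by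
        rw [natDegree_add_C, natDegree_pow]
        omega
      rw [add_assoc, natDegree_add_eq_left_of_natDegree_lt h2, natDegree_pow] at h1
      omega
    have hsum : ∑ k ∈ (Finset.range (2 * n)).disjSum (Finset.range (2 * n)),
        C (c k) * F k ^ (16 * n ^ 2) = 0 := by
      rw [Finset.sum_disjSum]
      simp only [c, F, Sum.elim_inl, Sum.elim_inr, C_1, one_mul, C_neg, neg_mul,
        Finset.sum_neg_distrib]
      have : val g - val h = 0 := by rw [hval, sub_self]
      unfold val at this
      linear_combination this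
    have hcard : ((Finset.range (2 * n)).disjSum (Finset.range (2 * n))).card ^ 2
        ≤ 16 * n ^ 2 := by
      rw [Finset.card_disjSum, Finset.card_range]
      apply le_of_eq
      ring
    have h1d : 1 ≤ 16 * n ^ 2 := by
      have : 1 ≤ n ^ 2 := Nat.one_le_pow _ _ hn
      omega
    obtain ⟨k, hk, hkne, γ, hγ, hγF⟩ := R864.PolyPow.exists_proportional
      ((Finset.range (2 * n)).disjSum (Finset.range (2 * n))) (16 * n ^ 2) hcard h1d c F hsum
      (Sum.inl i) (Finset.inl_mem_disjSum.2 hir) (by simp [c]) hF0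
    rcases k with j | j
    · have := (cubic_rigid hid i j γ hγ hγF).1
      subst this
      exact absurd rfl hkne
    · obtain ⟨h1, h2⟩ := cubic_rigid hid i j γ hγ hγF
      subst h1
      exact h2
  have hdiff : g - h = 0 := by
    apply vander _ S hScard
    intro i hi
    have h1 := hmain i hi
    unfold ell at h1 ⊢
    simp only [Pi.sub_apply, mul_sub, Finset.sum_sub_distrib]
    rw [h1, sub_self]
  exact sub_eq_zero.1 hdiff

end OneVar

/-- the determining polynomial
`p = ∑_{i=1}^{2n} (L_i^3 + L_i + i)^{16 n^2}`, `L_i = ∑_{j=0}^{n-1} i^j x_j`. -/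
noncomputable def detPoly (n : ℕ) : MvPolynomial (Fin n) ℤ :=
  ∑ i ∈ Finset.range (2 * n),
    ((∑ j : Fin n, MvPolynomial.C (((i : ℤ) + 1) ^ (j : ℕ)) * MvPolynomial.X j) ^ 3
      + (∑ j : Fin n, MvPolynomial.C (((i : ℤ) + 1) ^ (j : ℕ)) * MvPolynomial.X j)
      + MvPolynomial.C ((i : ℤ) + 1)) ^ (16 * n ^ 2)

theorem eval_detPoly {K : Type*} [Field K] [CharZero K] (n : ℕ)
    (θ : MvPolynomial (Fin n) K →ₐ[K] K[X]) :
    θ (MvPolynomial.map (Int.castRingHom K) (detPoly n)) =
      val (fun j => θ (MvPolynomial.X j)) := by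
  unfold detPoly val ell
  simp only [map_sum, map_pow, map_add, map_mul, MvPolynomial.map_C, MvPolynomial.map_X,
    Int.coe_castRingHom]
  refine Finset.sum_congr rfl fun i _ => ?_
  have hC : ∀ c : K, θ (MvPolynomial.C c) = C c := by
    intro c
    rw [← MvPolynomial.algebraMap_eq, AlgHom.commutes, Polynomial.algebraMap_eq]
  simp only [hC, map_one, Int.cast_natCast, Int.cast_one]

/-- For every `n` there is one polynomial `p` with integer coefficients such that for every field
`K` of characteristic `0`, every set `σ` of variables, and all `K`-algebra homomorphisms `φ, ψ`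
from `K[x_1, ..., x_n]` to `K[σ]`, if the image of `φ` contains a non-constant polynomial and
`φ p = ψ p`, then `φ = ψ`. -/
theorem result (n : ℕ) : ∃ p : MvPolynomial (Fin n) ℤ,
    ∀ (K : Type u) [Field K] [CharZero K] (σ : Type v)
      (φ ψ : MvPolynomial (Fin n) K →ₐ[K] MvPolynomial σ K),
      (∃ f, ∀ c : K, φ f ≠ MvPolynomial.C c) →
      φ (MvPolynomial.map (Int.castRingHom K) p) = ψ (MvPolynomial.map (Int.castRingHom K) p) →
      φ = ψ := by
  refine ⟨detPoly n, ?_⟩
  intro K _ _ σ φ ψ hφ hp
  classical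
  by_contra hne
  -- a coordinate where they differ
  have hdiff : ∃ a, φ (MvPolynomial.X a) ≠ ψ (MvPolynomial.X a) := by
    by_contra hall
    push Not at hall
    exact hne (MvPolynomial.algHom_ext hall)
  obtain ⟨a, ha⟩ := hdiff
  -- a nonconstant coordinate
  have hnc : ∃ b, ∀ c : K, φ (MvPolynomial.X b) ≠ MvPolynomial.C c := by
    by_contra hall
    push Not at hall
    choose c hc using hall
    obtain ⟨f, hf⟩ := hφ
    apply hf (MvPolynomial.aeval c f)
    have h1 : φ = (Algebra.ofId K (MvPolynomial σ K)).comp (MvPolynomial.aeval c) := by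
      apply MvPolynomial.algHom_ext
      intro i
      simp only [AlgHom.comp_apply, MvPolynomial.aeval_X]
      rw [hc i]
      rfl
    rw [h1]
    rfl
  obtain ⟨b, hb⟩ := hnc
  -- points
  have hpt : ∃ x : σ → K, MvPolynomial.eval x (φ (MvPolynomial.X a)) ≠
      MvPolynomial.eval x (ψ (MvPolynomial.X a)) := by
    by_contra hall
    push Not at hall
    exact ha (MvPolynomial.funext hall)
  obtain ⟨x, hx⟩ := hpt
  have hpt2 : ∃ y : σ → K, MvPolynomial.eval y (φ (MvPolynomial.X b)) ≠
      MvPolynomial.eval x (φ (MvPolynomial.X b)) := by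
    by_contra hall
    push Not at hall
    apply hb (MvPolynomial.eval x (φ (MvPolynomial.X b)))
    apply MvPolynomial.funext
    intro y
    rw [MvPolynomial.eval_C]
    exact hall y
  obtain ⟨y, hy⟩ := hpt2
  -- the line through x and y
  let ε : MvPolynomial σ K →ₐ[K] K[X] :=
    MvPolynomial.aeval (fun i => (C (x i) + X * C (y i - x i) : K[X]))
  have hε0 : ∀ q, (ε q).eval 0 = MvPolynomial.eval x q := by
    intro q
    have h1 : ((Polynomial.aeval (0 : K)).comp ε : MvPolynomial σ K →ₐ[K] K)
        = MvPolynomial.aeval x := by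
      apply MvPolynomial.algHom_ext
      intro i
      simp [ε]
    have h2 := DFunLike.congr_fun h1 q
    simpa [MvPolynomial.coe_aeval_eq_eval, Polynomial.aeval_def, Polynomial.eval₂_eq_eval_map]
      using h2
  have hε1 : ∀ q, (ε q).eval 1 = MvPolynomial.eval y q := by
    intro q
    have h1 : ((Polynomial.aeval (1 : K)).comp ε : MvPolynomial σ K →ₐ[K] K)
        = MvPolynomial.aeval y := by
      apply MvPolynomial.algHom_ext
      intro i
      simp [ε]
    have h2 := DFunLike.congr_fun h1 q
    simpa [MvPolynomial.coe_aeval_eq_eval, Polynomial.aeval_def, Polynomial.eval₂_eq_eval_map]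
      using h2
  have hfin := one_var (fun j => (ε.comp φ) (MvPolynomial.X j))
    (fun j => (ε.comp ψ) (MvPolynomial.X j)) ⟨b, by
      intro h0
      obtain ⟨c, hc⟩ := natDegree_eq_zero.1 h0
      have e0 := hε0 (φ (MvPolynomial.X b))
      have e1 := hε1 (φ (MvPolynomial.X b))
      have hc' : ε (φ (MvPolynomial.X b)) = C c := hc.symm
      rw [hc', eval_C] at e0 e1
      exact hy (e1.symm.trans e0)⟩ (by
      rw [← eval_detPoly, ← eval_detPoly]
      simp only [AlgHom.comp_apply]
      rw [hp])
  have h1 := congrFun hfin a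
  simp only [AlgHom.comp_apply] at h1
  apply hx
  rw [← hε0, ← hε0, h1]

end Pool.Agent.Results.MP_d61c7e_al.DeterminingPolynomial
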